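import Pool.Agent.H8.AV3.Stmts7
import Pool.Agent.H28.AV3B.AVW
import Pool.Agent.H19.AV3B.LVA
import Pool.Agent.H19.AVS.TB3

/-!
# AV3C, module MDT : primes of medium size
-/

set_option autoImplicit false

namespace Pool.Agent.H40.AV3C.MDT

open Polynomial Matrix Pool.AVR Pool.AV3 Pool.Agent.H28.AV3B

section Gen

variable {F : Type} [Field F]

theorem pow_inj2 {a b : ℕ} (ha : 1 ≤ a) (P Q : F[X]) (hP : P.Monic)
    (hPi : Irreducible P) (hQ : Q.Monic) (hQi : Irreducible Q) (h : P ^ a = Q ^ b) : P = Q := by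
  apply eq_of_dvd P Q hP hPi hQ hQi
  have h1 : P ∣ Q ^ b := by
    rw [← h]
    exact dvd_pow_self P (by omega)
  exact hPi.prime.dvd_of_dvd_pow h1

open Classical in
/-- The local functions, with variable exponents. -/
noncomputable def PhiE (u : F[X] → (Fin 10 → F[X]) → ℝ) (S : Finset F[X]) (e : F[X] → ℕ)
    (M : F[X]) (c : Fin 10 → AdjoinRoot M) : ℝ :=
  if h : ∃ P ∈ S, P ^ e P = M then u (Classical.choose h) (fun i => AVS.lft (c i)) else 0

theorem PhiE_eq (u : F[X] → (Fin 10 → F[X]) → ℝ) (S : Finset F[X]) (e : F[X] → ℕ)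
    (he : ∀ P ∈ S, 1 ≤ e P)
    (hS : ∀ P ∈ S, P.Monic ∧ Irreducible P) (P : F[X]) (hP : P ∈ S)
    (c : Fin 10 → AdjoinRoot (P ^ e P)) :
    PhiE u S e (P ^ e P) c = u P (fun i => AVS.lft (c i)) := by
  have h : ∃ Q ∈ S, Q ^ e Q = P ^ e P := ⟨P, hP, rfl⟩
  have h1 := Classical.choose_spec h
  have h2 : Classical.choose h = P :=
    pow_inj2 (he _ h1.1) _ _ (hS _ h1.1).1 (hS _ h1.1).2 (hS P hP).1 (hS P hP).2 h1.2
  unfold PhiE
  rw [dif_pos h, h2]

theorem gen2 [Finite F] (hEQP : EQP3Stmt) (u : F[X] → (Fin 10 → F[X]) → ℝ)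
    (v : (Fin 10 → F[X]) → ℝ)
    (S : Finset F[X]) (e : F[X] → ℕ) (he : ∀ P ∈ S, 1 ≤ e P) (N : ℕ) (hN : 1 ≤ N)
    (hS : ∀ P ∈ S, P.Monic ∧ Irreducible P)
    (hu : ∀ P ∈ S, ∀ c : Fin 10 → F[X], u P (fun i => AVS.lft (md (P ^ e P) c i)) = u P c)
    (hv : ∀ c : Fin 10 → F[X], v (fun i => AVS.lft (md (X ^ N) c i)) = v c)
    (n α β : ℕ) (hn : (∑ P ∈ S, e P * P.natDegree) + N + 2 * α + β ≤ n + 1) :
    (Vd n (dv α β) : Set (Fin 10 → F[X])).Finite ∧
    ∑ᶠ c ∈ (Vd n (dv α β) : Set (Fin 10 → F[X])),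
        (∏ P ∈ S, u P c) * v (cinf n (dv α β) c) =
      (Nat.card F : ℝ) ^ (10 * n + 10) *
        (∏ P ∈ S, (∑ᶠ c : Fin 10 → AdjoinRoot (P ^ e P), u P (fun i => AVS.lft (c i))) /
          (Nat.card F : ℝ) ^ (10 * (e P * P.natDegree))) *
        ((∑ᶠ c : Fin 10 → AdjoinRoot ((X : F[X]) ^ N), v (fun i => AVS.lft (c i))) /
          (Nat.card F : ℝ) ^ (10 * N)) := by
  classical
  have hinj : Set.InjOn (fun P : F[X] => P ^ e P) (S : Set F[X]) := by
    intro P hP Q hQ h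
    exact pow_inj2 (he P hP) P Q (hS P hP).1 (hS P hP).2 (hS Q hQ).1 (hS Q hQ).2 h
  have hdeg : ∑ M ∈ S.image (fun P => P ^ e P), M.natDegree = ∑ P ∈ S, e P * P.natDegree := by
    rw [Finset.sum_image hinj]
    exact Finset.sum_congr rfl (fun P _ => natDegree_pow P _)
  obtain ⟨hfin, h⟩ := hEQP F n α β N (S.image (fun P => P ^ e P)) hN
    (by
      intro M hM
      obtain ⟨P, hP, rfl⟩ := Finset.mem_image.1 hM
      exact (hS P hP).1.pow _)
    (by
      intro M hM M' hM' hne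
      obtain ⟨P, hP, rfl⟩ := Finset.mem_image.1 hM
      obtain ⟨Q, hQ, rfl⟩ := Finset.mem_image.1 hM'
      apply IsCoprime.pow
      apply cop P Q (hS P hP).1 (hS P hP).2 (hS Q hQ).1 (hS Q hQ).2
      rintro rfl
      exact hne rfl)
    (by rw [hdeg]; exact hn)
    (PhiE u S e) (fun c => v (fun i => AVS.lft (c i)))
  refine ⟨hfin, ?_⟩
  rw [Finset.prod_image hinj] at h
  have e1 : ∀ c : Fin 10 → F[X],
      (∏ M ∈ S.image (fun P => P ^ e P), PhiE u S e M (md M c)) *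
        v (fun i => AVS.lft (md (X ^ N) (cinf n (dv α β) c) i)) =
          (∏ P ∈ S, u P c) * v (cinf n (dv α β) c) := by
    intro c
    rw [Finset.prod_image hinj, hv (cinf n (dv α β) c)]
    congr 1
    refine Finset.prod_congr rfl (fun P hP => ?_)
    rw [PhiE_eq u S e he hS P hP, hu P hP c]
  simp only [e1] at h
  rw [h]
  congr 1
  congr 1
  refine Finset.prod_congr rfl (fun P hP => ?_)
  rw [natDegree_pow]
  have e2 : ∀ c : Fin 10 → AdjoinRoot (P ^ e P),
      PhiE u S e (P ^ e P) c = u P (fun i => AVS.lft (c i)) := PhiE_eq u S e he hS P hP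
  simp only [e2]

end Gen

section Cnt

variable {F : Type} [Field F] [Finite F]

open Pool.AVS.TB3 in
theorem monic_card (d : ℕ) (T : Finset F[X]) (hT : ∀ P ∈ T, P.Monic ∧ P.natDegree = d) :
    T.card ≤ Nat.card F ^ d := by
  rw [← PD_card (F := F) d, Set.ncard_eq_toFinset_card _ (PD_fin d)]
  refine Finset.card_le_card_of_injOn (fun P => P - X ^ d) ?_ ?_
  · intro P hP
    have h := hT P hP
    rw [Finset.mem_coe, Set.Finite.mem_toFinset]
    change (P - X ^ d).degree < (d : WithBot ℕ)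
    have hdP : P.degree = (d : WithBot ℕ) := by
      rw [degree_eq_natDegree h.1.ne_zero, h.2]
    rw [← hdP]
    apply degree_sub_lt_left
    · rw [hdP, degree_X_pow]
    · exact h.1.ne_zero
    · rw [h.1.leadingCoeff, (monic_X_pow d).leadingCoeff]
  · intro P _ Q _ h
    exact sub_left_inj.1 h

theorem geo (q : ℝ) (hq : 3 ≤ q) (D K : ℕ) (h : D ≤ K) :
    ∑ d ∈ Finset.Ioc D K, 1 / q ^ d ≤ 1 / 2 * (1 / q ^ D - 1 / q ^ K) := by
  induction K, h using Nat.le_induction with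
  | base => simp
  | succ K hK ih =>
    rw [Finset.sum_Ioc_succ_top (by omega)]
    have hq0 : 0 < q := by linarith
    have h1 : 1 / q ^ K = q * (1 / q ^ (K + 1)) := by
      rw [pow_succ]; field_simp
    have h2 : 0 < 1 / q ^ (K + 1) := by positivity
    rw [h1] at ih
    nlinarith

theorem sum_primes (D K : ℕ) (T : Finset F[X]) (hq : (3 : ℝ) ≤ Nat.card F)
    (hT : ∀ P ∈ T, P.Monic ∧ D < P.natDegree ∧ P.natDegree ≤ K) :
    ∑ P ∈ T, 1 / (Nat.card F : ℝ) ^ (2 * P.natDegree) ≤ 1 / 2 * (1 / (Nat.card F : ℝ) ^ D) := by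
  classical
  by_cases hDK : D ≤ K
  · have hq0 : (0 : ℝ) < Nat.card F := by linarith
    rw [← Finset.sum_fiberwise_of_maps_to (g := fun P : F[X] => P.natDegree)
      (t := Finset.Ioc D K) (fun P hP => Finset.mem_Ioc.2 (hT P hP).2)]
    calc ∑ d ∈ Finset.Ioc D K, ∑ P ∈ T with P.natDegree = d, 1 / (Nat.card F : ℝ) ^ (2 * P.natDegree)
        ≤ ∑ d ∈ Finset.Ioc D K, 1 / (Nat.card F : ℝ) ^ d := by
          refine Finset.sum_le_sum fun d _ => ?_
          have h1 : ∑ P ∈ T with P.natDegree = d, 1 / (Nat.card F : ℝ) ^ (2 * P.natDegree) =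
              ({P ∈ T | P.natDegree = d} : Finset F[X]).card * (1 / (Nat.card F : ℝ) ^ (2 * d)) := by
            rw [Finset.sum_congr rfl (g := fun _ => 1 / (Nat.card F : ℝ) ^ (2 * d)),
              Finset.sum_const, nsmul_eq_mul]
            intro P hP
            rw [(Finset.mem_filter.1 hP).2]
          rw [h1]
          have h2 : (({P ∈ T | P.natDegree = d} : Finset F[X]).card : ℝ) ≤ (Nat.card F : ℝ) ^ d := by
            exact_mod_cast monic_card d _ fun P hP =>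
              ⟨(hT P (Finset.mem_filter.1 hP).1).1, (Finset.mem_filter.1 hP).2⟩
          calc (({P ∈ T | P.natDegree = d} : Finset F[X]).card : ℝ) *
                (1 / (Nat.card F : ℝ) ^ (2 * d))
              ≤ (Nat.card F : ℝ) ^ d * (1 / (Nat.card F : ℝ) ^ (2 * d)) :=
                mul_le_mul_of_nonneg_right h2 (by positivity)
            _ = 1 / (Nat.card F : ℝ) ^ d := by
                rw [two_mul, pow_add]; field_simp
      _ ≤ 1 / 2 * (1 / (Nat.card F : ℝ) ^ D - 1 / (Nat.card F : ℝ) ^ K) := geo _ hq D K hDK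
      _ ≤ 1 / 2 * (1 / (Nat.card F : ℝ) ^ D) := by
          have : 0 < 1 / (Nat.card F : ℝ) ^ K := by positivity
          linarith
  · have : T = ∅ := by
      rw [Finset.eq_empty_iff_forall_notMem]
      intro P hP
      have := hT P hP
      omega
    rw [this, Finset.sum_empty]
    positivity

end Cnt

section Loc

variable {F : Type} [Field F] [Finite F]

omit [Finite F] in
theorem dvd_lft (P : F[X]) (c : Fin 10 → F[X]) :
    P ^ 2 ∣ dsc (Jc (hf F) fun i => AVS.lft (md (P ^ 2) c i)) ↔ P ^ 2 ∣ dsc (Jc (hf F) c) := by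
  have h : ∀ c' : Fin 10 → F[X], P ^ 2 ∣ dsc (Jc (hf F) c') ↔
      dsc (Jc (AdjoinRoot.mk (P ^ 2) (hf F)) (md (P ^ 2) c')) = 0 := by
    intro c'
    rw [← Pool.Agent.H19.AV3B.LVA.md3_Jc, Pool.Agent.H19.AV3B.LVA.dsc_md3, AdjoinRoot.mk_eq_zero]
  rw [h, h, Pool.Agent.H19.AV3B.LVA.md_lft]

open Classical in
/-- the local density at `P` -/
theorem dens (hMED : MEDStmt) (h2 : (2 : F) ≠ 0) (P : F[X]) (hP : P.Monic)
    (hPi : Irreducible P) :
    (∑ᶠ c : Fin 10 → AdjoinRoot (P ^ 2),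
      (if P ^ 2 ∣ dsc (Jc (hf F) fun i => AVS.lft (c i)) then (1 : ℝ) else 0)) ≤
      4 * (Nat.card F : ℝ) ^ (18 * P.natDegree) := by
  have hP2 : P ^ 2 ≠ 0 := (hP.pow 2).ne_zero
  have : Module.Finite F (AdjoinRoot (P ^ 2)) := (AdjoinRoot.powerBasis hP2).finite
  have : Finite (AdjoinRoot (P ^ 2)) := Module.finite_of_finite F
  have : Fintype (AdjoinRoot (P ^ 2)) := Fintype.ofFinite _
  rw [finsum_eq_sum_of_fintype, Finset.sum_boole]
  have h1 := hMED F h2 P hP hPi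
  have h3 : (Finset.univ.filter fun c : Fin 10 → AdjoinRoot (P ^ 2) =>
      P ^ 2 ∣ dsc (Jc (hf F) fun i => AVS.lft (c i))).card ≤
      {c : Fin 10 → AdjoinRoot (P ^ 2) | P ^ 2 ∣ dsc (Jc (hf F) fun i => AVS.lft (c i)) ∨
      gdk (md P fun i => AVS.lft (c i)) = 0}.ncard := by
    rw [← Set.ncard_coe_finset]
    apply Set.ncard_le_ncard _ (Set.toFinite _)
    intro c hc
    rw [Finset.mem_coe, Finset.mem_filter] at hc
    exact Or.inl hc.2
  exact_mod_cast h3.trans h1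

open Classical in
/-- the bound for one prime -/
theorem one_prime (hEQP : EQP3Stmt) (hLVA : LVAStmt) (hMED : MEDStmt) (h2 : (2 : F) ≠ 0)
    (S : Finset F[X]) (hS : ∀ P ∈ S, P.Monic ∧ Irreducible P) (N : ℕ) (hN : 1 ≤ N)
    (hav : ∀ Q ∈ insert X S, ∑ᶠ c : Fin 10 → AdjoinRoot (Q ^ N), wb Q N (fun i => AVS.lft (c i)) ≤
      (Nat.card F : ℝ) ^ (10 * (N * Q.natDegree)))
    (P : F[X]) (hP : P.Monic) (hPi : Irreducible P) (hPS : P ∉ S) (n α β : ℕ)
    (hn : 2 * P.natDegree + N * (∑ P ∈ S, P.natDegree + 1) + 2 * α + β ≤ n + 1) :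
    ∑ᶠ c ∈ (Vd n (dv α β) : Set (Fin 10 → F[X])),
      (if P ^ 2 ∣ dsc (Jc (hf F) c) then (1 : ℝ) else 0) * WB3 n α β S N c ≤
      (Nat.card F : ℝ) ^ (10 * n + 10) * (4 * (1 / (Nat.card F : ℝ) ^ (2 * P.natDegree))) := by
  have hq : (0 : ℝ) < Nat.card F := by exact_mod_cast Nat.card_pos
  set u : F[X] → (Fin 10 → F[X]) → ℝ := fun Q c =>
    if Q = P then (if P ^ 2 ∣ dsc (Jc (hf F) c) then (1 : ℝ) else 0) else wb Q N c with hu
  set e : F[X] → ℕ := fun Q => if Q = P then 2 else N with hedef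
  have huP : ∀ c, u P c = if P ^ 2 ∣ dsc (Jc (hf F) c) then (1 : ℝ) else 0 := fun c => if_pos rfl
  have heP : e P = 2 := if_pos rfl
  have hne : ∀ Q ∈ S, Q ≠ P := fun Q hQ h => hPS (h ▸ hQ)
  have huQ : ∀ Q ∈ S, ∀ c, u Q c = wb Q N c := fun Q hQ c => if_neg (hne Q hQ)
  have heQ : ∀ Q ∈ S, e Q = N := fun Q hQ => if_neg (hne Q hQ)
  have hS' : ∀ Q ∈ insert P S, Q.Monic ∧ Irreducible Q := by
    intro Q hQ
    rcases Finset.mem_insert.1 hQ with rfl | hQ
    · exact ⟨hP, hPi⟩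
    · exact hS Q hQ
  have hXA := (hLVA F h2 X monic_X irreducible_X).2 N hN
  have hSA := fun Q (hQ : Q ∈ S) => (hLVA F h2 Q (hS Q hQ).1 (hS Q hQ).2).2 N hN
  obtain ⟨hfin, h⟩ := gen2 hEQP u (fun c => wb X N c) (insert P S) e
    (by
      intro Q hQ
      rcases Finset.mem_insert.1 hQ with rfl | hQ
      · rw [heP]; norm_num
      · rw [heQ Q hQ]; exact hN) N hN hS'
    (by
      intro Q hQ c
      rcases Finset.mem_insert.1 hQ with rfl | hQ
      · rw [heP, huP, huP]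
        simp only [dvd_lft]
      · rw [heQ Q hQ, huQ Q hQ, huQ Q hQ]
        exact (hSA Q hQ c).1)
    (fun c => (hXA c).1) n α β (by
      rw [Finset.sum_insert hPS, heP, Finset.sum_congr rfl fun Q hQ => by rw [heQ Q hQ],
        ← Finset.mul_sum]
      rw [mul_add, mul_one] at hn
      omega)
  rw [Finset.prod_insert hPS] at h
  have e1 : ∀ c, (∏ Q ∈ insert P S, u Q c) * wb X N (cinf n (dv α β) c) =
      (if P ^ 2 ∣ dsc (Jc (hf F) c) then (1 : ℝ) else 0) * WB3 n α β S N c := by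
    intro c
    rw [Finset.prod_insert hPS, huP, mul_assoc]
    congr 1
    unfold WB3
    congr 1
    exact Finset.prod_congr rfl fun Q hQ => huQ Q hQ c
  simp only [e1] at h
  rw [h]
  have t1 : (∑ᶠ c : Fin 10 → AdjoinRoot (P ^ e P), u P (fun i => AVS.lft (c i))) /
      (Nat.card F : ℝ) ^ (10 * (e P * P.natDegree)) ≤
      4 * (1 / (Nat.card F : ℝ) ^ (2 * P.natDegree)) := by
    rw [div_le_iff₀ (by positivity)]
    have h3 := dens hMED h2 P hP hPi
    have h4 : ∑ᶠ c : Fin 10 → AdjoinRoot (P ^ e P), u P (fun i => AVS.lft (c i)) =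
        ∑ᶠ c : Fin 10 → AdjoinRoot (P ^ 2),
          (if P ^ 2 ∣ dsc (Jc (hf F) fun i => AVS.lft (c i)) then (1 : ℝ) else 0) := by
      rw [heP]
      simp only [huP]
    rw [h4, heP]
    refine h3.trans (le_of_eq ?_)
    have h5 : 10 * (2 * P.natDegree) = 18 * P.natDegree + 2 * P.natDegree := by ring
    rw [h5, pow_add]
    field_simp
  have t2 : ∏ Q ∈ S, (∑ᶠ c : Fin 10 → AdjoinRoot (Q ^ e Q), u Q (fun i => AVS.lft (c i))) /
      (Nat.card F : ℝ) ^ (10 * (e Q * Q.natDegree)) ≤ 1 := by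
    apply Finset.prod_le_one
    · intro Q hQ
      apply div_nonneg _ (by positivity)
      apply finsum_nonneg
      intro c
      rw [huQ Q hQ]
      exact (hSA Q hQ _).2.2.1
    · intro Q hQ
      rw [div_le_iff₀ (by positivity), one_mul, heQ Q hQ]
      simp only [huQ Q hQ]
      exact hav Q (Finset.mem_insert_of_mem hQ)
  have t2' : 0 ≤ ∏ Q ∈ S, (∑ᶠ c : Fin 10 → AdjoinRoot (Q ^ e Q), u Q (fun i => AVS.lft (c i))) /
      (Nat.card F : ℝ) ^ (10 * (e Q * Q.natDegree)) := by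
    apply Finset.prod_nonneg
    intro Q hQ
    apply div_nonneg _ (by positivity)
    apply finsum_nonneg
    intro c
    rw [huQ Q hQ]
    exact (hSA Q hQ _).2.2.1
  have t3 : (∑ᶠ c : Fin 10 → AdjoinRoot ((X : F[X]) ^ N), wb X N (fun i => AVS.lft (c i))) /
      (Nat.card F : ℝ) ^ (10 * N) ≤ 1 := by
    rw [div_le_iff₀ (by positivity), one_mul]
    have := hav X (Finset.mem_insert_self _ _)
    rwa [natDegree_X, mul_one] at this
  have t3' : 0 ≤ (∑ᶠ c : Fin 10 → AdjoinRoot ((X : F[X]) ^ N), wb X N (fun i => AVS.lft (c i))) /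
      (Nat.card F : ℝ) ^ (10 * N) := by
    apply div_nonneg _ (by positivity)
    exact finsum_nonneg (fun c => (hXA _).2.2.1)
  rw [mul_assoc]
  apply mul_le_mul_of_nonneg_left _ (by positivity)
  have t0 : (0 : ℝ) ≤ 4 * (1 / (Nat.card F : ℝ) ^ (2 * P.natDegree)) := by positivity
  calc _ ≤ (4 * (1 / (Nat.card F : ℝ) ^ (2 * P.natDegree)) * 1) * 1 := by
        refine mul_le_mul ?_ t3 t3' (by positivity)
        exact mul_le_mul t1 t2 t2' t0
    _ = _ := by ring

omit [Field F] [Finite F] in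
theorem rho_lt (k : ℕ) (hq : (1 : ℝ) ≤ Nat.card F) : rhoF F k < 1 := by
  unfold rhoF
  have h1 : (0 : ℝ) < 1 / (Nat.card F : ℝ) ^ (2 * k) := by positivity
  have h2 : (0 : ℝ) < 1 / (Nat.card F : ℝ) ^ (3 * k) := by positivity
  have h3 : 1 / (Nat.card F : ℝ) ^ (3 * k) ≤ 1 := by
    rw [div_le_one (by positivity)]
    exact one_le_pow₀ hq
  have h4 : 1 / (Nat.card F : ℝ) ^ (2 * k) ≤ 1 := by
    rw [div_le_one (by positivity)]
    exact one_le_pow₀ hq
  nlinarith

end Loc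

end Pool.Agent.H40.AV3C.MDT

namespace Pool.Agent.H40.AV3C

open Polynomial Matrix Pool.AVR Pool.AV3 Pool.Agent.H28.AV3B MDT

open Classical in
theorem mdt_thm (hEQP : EQP3Stmt) (hLVA : LVAStmt) (hLVB : LVBStmt) (hMED : MEDStmt) :
    MDTStmt := by
  intro F _ _ h2 S hS
  have hq1 : 1 < Nat.card F := Finite.one_lt_card
  have hq3 : 3 ≤ Nat.card F := by
    by_contra hlt
    have hc : Nat.card F = 2 := by omega
    have hF := Fintype.ofFinite F
    rw [Nat.card_eq_fintype_card] at hc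
    have h0 := FiniteField.cast_card_eq_zero F
    rw [hc] at h0
    exact h2 (by exact_mod_cast h0)
  have hq3' : (3 : ℝ) ≤ Nat.card F := by exact_mod_cast hq3
  have hq0 : (0 : ℝ) < Nat.card F := by linarith
  have hL : ∀ P ∈ insert X S, ∃ N₀ : ℕ, ∀ N : ℕ, N₀ ≤ N →
      ∑ᶠ c : Fin 10 → AdjoinRoot (P ^ N), wb P N (fun i => AVS.lft (c i)) ≤
        (Nat.card F : ℝ) ^ (10 * (N * P.natDegree)) := by
    intro P hP
    have hPP : P.Monic ∧ Irreducible P := by
      rcases Finset.mem_insert.1 hP with rfl | hP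
      · exact ⟨monic_X, irreducible_X⟩
      · exact hS P hP
    obtain ⟨N₀, hN₀⟩ := hLVB F h2 P hPP.1 hPP.2 (1 - rhoF F P.natDegree)
      (sub_pos.2 (rho_lt _ (by linarith)))
    refine ⟨N₀, fun N hN => (hN₀ N hN).1.trans (le_of_eq ?_)⟩
    ring
  choose! N₀ hN₀ using hL
  refine ⟨max 1 ((insert X S).sup N₀), fun N hN D n α β => ?_⟩
  have hN1 : 1 ≤ N := (le_max_left _ _).trans hN
  have hav := fun P (hP : P ∈ insert X S) =>
    hN₀ P hP N (((Finset.le_sup hP).trans (le_max_right _ _)).trans hN)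
  -- the primes
  set PF : Finset F[X] := (Pool.AVS.TB3.PD_fin (F := F) (n + 2)).toFinset.filter fun P =>
    P.Monic ∧ Irreducible P ∧ P ∉ S ∧ D < P.natDegree ∧
      2 * P.natDegree + N * (∑ P ∈ S, P.natDegree + 1) + 2 * α + β ≤ n + 1 with hPF
  have hPFmem : ∀ P, P ∈ PF ↔ P.Monic ∧ Irreducible P ∧ P ∉ S ∧ D < P.natDegree ∧
      2 * P.natDegree + N * (∑ P ∈ S, P.natDegree + 1) + 2 * α + β ≤ n + 1 := by
    intro P
    rw [hPF, Finset.mem_filter, Set.Finite.mem_toFinset]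
    constructor
    · exact fun h => h.2
    · intro h
      refine ⟨?_, h⟩
      change P.degree < _
      rw [degree_eq_natDegree h.1.ne_zero]
      have : P.natDegree < n + 2 := by omega
      exact_mod_cast this
  -- nonnegativity
  have hw0 : ∀ c, 0 ≤ WB3 n α β S N c := by
    intro c
    unfold WB3
    apply mul_nonneg
    · apply Finset.prod_nonneg
      intro Q hQ
      exact ((hLVA F h2 Q (hS Q hQ).1 (hS Q hQ).2).2 N hN1 c).2.2.1
    · exact ((hLVA F h2 X monic_X irreducible_X).2 N hN1 _).2.2.1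
  by_cases hfin : (Vd n (dv α β) : Set (Fin 10 → F[X])).Finite
  · set A : Set (Fin 10 → F[X]) := {c : Fin 10 → F[X] | c ∈ Vd n (dv α β) ∧ ∃ P : F[X],
      P.Monic ∧ Irreducible P ∧ P ∉ S ∧ D < P.natDegree ∧
        2 * P.natDegree + N * (∑ P ∈ S, P.natDegree + 1) + 2 * α + β ≤ n + 1 ∧
        P ^ 2 ∣ dsc (Jc (hf F) c)} with hA
    have hAfin : A.Finite := hfin.subset fun c hc => hc.1
    have step1 : ∑ᶠ c ∈ A, WB3 n α β S N c ≤ ∑ P ∈ PF,
        ∑ᶠ c ∈ (Vd n (dv α β) : Set (Fin 10 → F[X])),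
          (if P ^ 2 ∣ dsc (Jc (hf F) c) then (1 : ℝ) else 0) * WB3 n α β S N c := by
      rw [finsum_mem_eq_finite_toFinset_sum _ hAfin]
      simp only [finsum_mem_eq_finite_toFinset_sum _ hfin]
      rw [Finset.sum_comm]
      calc ∑ c ∈ hAfin.toFinset, WB3 n α β S N c
          ≤ ∑ c ∈ hAfin.toFinset, ∑ P ∈ PF,
            (if P ^ 2 ∣ dsc (Jc (hf F) c) then (1 : ℝ) else 0) * WB3 n α β S N c := by
            refine Finset.sum_le_sum fun c hc => ?_
            rw [Set.Finite.mem_toFinset] at hc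
            obtain ⟨_, P, h3, h4, h5, h6, h7, h8⟩ := hc
            have hP : P ∈ PF := (hPFmem P).2 ⟨h3, h4, h5, h6, h7⟩
            have := Finset.single_le_sum (f := fun P : F[X] =>
              (if P ^ 2 ∣ dsc (Jc (hf F) c) then (1 : ℝ) else 0) * WB3 n α β S N c)
              (fun Q _ => mul_nonneg (by split_ifs <;> norm_num) (hw0 c)) hP
            refine le_trans (le_of_eq ?_) this
            rw [if_pos h8, one_mul]
        _ ≤ _ := by
            apply Finset.sum_le_sum_of_subset_of_nonneg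
            · intro c hc
              rw [Set.Finite.mem_toFinset] at hc ⊢
              exact hc.1
            · intro c _ _
              exact Finset.sum_nonneg fun P _ =>
                mul_nonneg (by split_ifs <;> norm_num) (hw0 c)
    refine step1.trans ?_
    calc _ ≤ ∑ P ∈ PF, (Nat.card F : ℝ) ^ (10 * n + 10) *
            (4 * (1 / (Nat.card F : ℝ) ^ (2 * P.natDegree))) := by
          refine Finset.sum_le_sum fun P hP => ?_
          obtain ⟨h3, h4, h5, h6, h7⟩ := (hPFmem P).1 hP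
          exact one_prime hEQP hLVA hMED h2 S hS N hN1 hav P h3 h4 h5 n α β h7
      _ = (Nat.card F : ℝ) ^ (10 * n + 10) * (4 *
            ∑ P ∈ PF, (1 / (Nat.card F : ℝ) ^ (2 * P.natDegree))) := by
          rw [Finset.mul_sum, Finset.mul_sum]
      _ ≤ (Nat.card F : ℝ) ^ (10 * n + 10) * (4 * (1 / 2 * (1 / (Nat.card F : ℝ) ^ D))) := by
          apply mul_le_mul_of_nonneg_left _ (by positivity)
          apply mul_le_mul_of_nonneg_left _ (by norm_num)
          refine sum_primes D (n + 1) PF hq3' fun P hP => ?_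
          obtain ⟨h3, h4, h5, h6, h7⟩ := (hPFmem P).1 hP
          exact ⟨h3, h6, by omega⟩
      _ = 2 / (Nat.card F : ℝ) ^ D * (Nat.card F : ℝ) ^ (10 * n + 10) := by ring
  · -- no primes: the set is empty
    have hemp : {c : Fin 10 → F[X] | c ∈ Vd n (dv α β) ∧ ∃ P : F[X],
      P.Monic ∧ Irreducible P ∧ P ∉ S ∧ D < P.natDegree ∧
        2 * P.natDegree + N * (∑ P ∈ S, P.natDegree + 1) + 2 * α + β ≤ n + 1 ∧
        P ^ 2 ∣ dsc (Jc (hf F) c)} = ∅ := by
      rw [Set.eq_empty_iff_forall_notMem]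
      rintro c ⟨_, P, h3, h4, h5, h6, h7, h8⟩
      apply hfin
      exact (hEQP F n α β 1 ∅ le_rfl (by simp) (by simp) (by
        rw [Finset.sum_empty]
        rw [mul_add, mul_one] at h7
        omega) (fun _ _ => 0) (fun _ => 0)).1
    rw [hemp, finsum_mem_empty]
    positivity

end Pool.Agent.H40.AV3C
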