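import Pool.Agent.H8.AV3.Stmts5

/-!
# AV3C, module UNI3 : uniqueness of the lattice in which a given point is good (normal forms)
-/

set_option autoImplicit false

namespace Pool.Agent.H40.AV3C.UNI3

open Matrix Pool.AV3

variable {L : Type} [Field L]

/-- The relations between the coefficients. -/
structure Rel (A D E F G A' D' E' F' G' w z : L) : Prop where
  zne : z ≠ 0
  hA : z * A' = A
  hD : z * D' = D + A ^ 2 * w
  hE : E' = E + 3 * (w * (D + A ^ 2 * w / 2))
  hF : F' = z * (3 * D * w ^ 2 + A ^ 2 * w ^ 3 + 2 * E * w + F)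
  hG : G' = z ^ 2 * (D * w ^ 3 + A ^ 2 * w ^ 4 / 4 + E * w ^ 2 + F * w + G)

theorem Rel.swap {A D E F G A' D' E' F' G' w z : L} (h2 : (2 : L) ≠ 0)
    (h : Rel A D E F G A' D' E' F' G' w z) :
    Rel A' D' E' F' G' A D E F G (-(w * z)) z⁻¹ := by
  obtain ⟨zne, hA, hD, hE, hF, hG⟩ := h
  have h4 : (4 : L) ≠ 0 := by
    have : (4 : L) = 2 * 2 := by norm_num
    rw [this]; exact mul_ne_zero h2 h2
  have hA' : A' = A / z := by rw [← hA]; field_simp
  have hD' : D' = (D + A ^ 2 * w) / z := by rw [← hD]; field_simp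
  subst hA' hD' hE hF hG
  refine ⟨inv_ne_zero zne, ?_, ?_, ?_, ?_, ?_⟩
  · field_simp
  · field_simp; ring
  · field_simp; ring
  · field_simp; ring
  · field_simp; ring

theorem Rel.cubic {A D E F G A' D' E' F' G' w z : L} (h2 : (2 : L) ≠ 0)
    (h : Rel A D E F G A' D' E' F' G' w z) :
    (w * (D + A ^ 2 * w / 2)) ^ 3 + E * (w * (D + A ^ 2 * w / 2)) ^ 2 +
      (D * F - A ^ 2 * G) * (w * (D + A ^ 2 * w / 2)) +
      ((A ^ 2 * F ^ 2 / 4 + D ^ 2 * G - A ^ 2 * E * G) -
        (A' ^ 2 * F' ^ 2 / 4 + D' ^ 2 * G' - A' ^ 2 * E' * G')) = 0 := by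
  obtain ⟨zne, hA, hD, hE, hF, hG⟩ := h
  have h4 : (4 : L) ≠ 0 := by
    have : (4 : L) = 2 * 2 := by norm_num
    rw [this]; exact mul_ne_zero h2 h2
  have hA' : A' = A / z := by rw [← hA]; field_simp
  have hD' : D' = (D + A ^ 2 * w) / z := by rw [← hD]; field_simp
  subst hA' hD' hE hF hG
  field_simp
  ring

theorem integral {O : ValuationSubring L} {a b c x : L} (ha : a ∈ O) (hb : b ∈ O) (hc : c ∈ O)
    (h : x ^ 3 + a * x ^ 2 + b * x + c = 0) : x ∈ O := by
  rcases O.mem_or_inv_mem x with hx | hx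
  · exact hx
  · by_cases hx0 : x = 0
    · rw [hx0]; exact O.zero_mem
    · have : x = -(a + b * x⁻¹ + c * x⁻¹ ^ 2) := by
        field_simp
        linear_combination h
      rw [this]
      exact O.neg_mem _ (O.add_mem _ _ (O.add_mem _ _ ha (O.mul_mem _ _ hb hx))
        (O.mul_mem _ _ hc (pow_mem hx 2)))

section val

variable {O : ValuationSubring L}

theorem ui_iff {x : L} : AVS.UI (O : Set L) x ↔ O.valuation x = 1 := by
  constructor
  · rintro ⟨h0, h1, h2⟩
    apply le_antisymm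
    · exact (O.valuation_le_one_iff x).2 h1
    · have h3 := (O.valuation_le_one_iff x⁻¹).2 h2
      rw [map_inv₀] at h3
      exact (inv_le_one₀ (zero_lt_iff.2 ((Valuation.ne_zero_iff _).2 h0))).1 h3
  · intro h
    have h0 : x ≠ 0 := by
      rintro rfl
      rw [map_zero] at h
      exact zero_ne_one h
    refine ⟨h0, (O.valuation_le_one_iff x).1 h.le, (O.valuation_le_one_iff _).1 ?_⟩
    rw [map_inv₀, h, inv_one]

theorem val_lt_of_not {x : L} (hx : x ∈ O) (h : ¬ AVS.UI (O : Set L) x) : O.valuation x < 1 := by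
  rw [ui_iff] at h
  exact lt_of_le_of_ne ((O.valuation_le_one_iff x).2 hx) h

theorem add_unit {x y : L} (hx : O.valuation x = 1) (hy : O.valuation y < 1) :
    O.valuation (x + y) = 1 := by
  rw [Valuation.map_add_eq_of_lt_left _ (by rw [hx]; exact hy), hx]

variable {A D E F G A' D' E' F' G' w z : L}

theorem eta_mem (h20 : (2 : L) ≠ 0) (hI2 : (2 : L)⁻¹ ∈ O) (hA' : A' ∈ O) (hD : D ∈ O)
    (hE : E ∈ O) (hF : F ∈ O) (hG : G ∈ O) (hA : A ∈ O) (hD' : D' ∈ O) (hE' : E' ∈ O)
    (hF' : F' ∈ O) (hG' : G' ∈ O) (h : Rel A D E F G A' D' E' F' G' w z) :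
    w * (D + A ^ 2 * w / 2) ∈ O := by
  have h4 : (4 : L)⁻¹ ∈ O := by
    have : (4 : L)⁻¹ = (2 : L)⁻¹ * (2 : L)⁻¹ := by rw [← mul_inv]; norm_num
    rw [this]; exact mul_mem hI2 hI2
  refine integral hE ?_ ?_ (h.cubic h20)
  · exact sub_mem (mul_mem hD hF) (mul_mem (pow_mem hA 2) hG)
  · apply sub_mem
    · apply sub_mem
      · apply add_mem
        · rw [div_eq_mul_inv]
          exact mul_mem (mul_mem (pow_mem hA 2) (pow_mem hF 2)) h4
        · exact mul_mem (pow_mem hD 2) hG
      · exact mul_mem (mul_mem (pow_mem hA 2) hE) hG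
    · apply sub_mem
      · apply add_mem
        · rw [div_eq_mul_inv]
          exact mul_mem (mul_mem (pow_mem hA' 2) (pow_mem hF' 2)) h4
        · exact mul_mem (pow_mem hD' 2) hG'
      · exact mul_mem (mul_mem (pow_mem hA' 2) hE') hG'

/-- the multiplier is not in the maximal ideal -/
theorem not_lt (h2 : O.valuation 2 = 1) (hA' : A' ∈ O) (hD : D ∈ O) (hE : E ∈ O)
    (hF : F ∈ O) (hG : G ∈ O) (hA : A ∈ O) (hD' : D' ∈ O) (hE' : E' ∈ O) (hF' : F' ∈ O)
    (hG' : G' ∈ O)
    (hu : AVS.UI (O : Set L) A ∨ AVS.UI (O : Set L) D)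
    (h : Rel A D E F G A' D' E' F' G' w z) : ¬ O.valuation z < 1 := by
  intro hz
  have h20 : (2 : L) ≠ 0 := by
    intro h0; rw [h0, map_zero] at h2; exact zero_ne_one h2
  have hI2 : (2 : L)⁻¹ ∈ O := (O.valuation_le_one_iff _).1 (by rw [map_inv₀, h2, inv_one])
  have hvA : O.valuation A < 1 := by
    rw [← h.hA, map_mul]
    calc O.valuation z * O.valuation A' ≤ O.valuation z * 1 :=
          mul_le_mul_right ((O.valuation_le_one_iff _).2 hA') _
      _ < 1 := by rw [mul_one]; exact hz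
  have hvD : O.valuation D = 1 := by
    rcases hu with hu | hu
    · rw [ui_iff] at hu; rw [hu] at hvA; exact absurd hvA (lt_irrefl _)
    · exact ui_iff.1 hu
  have hvzD : O.valuation (z * D') < 1 := by
    rw [map_mul]
    calc O.valuation z * O.valuation D' ≤ O.valuation z * 1 :=
          mul_le_mul_right ((O.valuation_le_one_iff _).2 hD') _
      _ < 1 := by rw [mul_one]; exact hz
  have hS : O.valuation (D + A ^ 2 * w / 2) = 1 := by
    have e : D + A ^ 2 * w / 2 = (D + z * D') / 2 := by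
      rw [h.hD]; field_simp; ring
    rw [e, map_div₀, h2, div_one]
    exact add_unit hvD hvzD
  have heta : w * (D + A ^ 2 * w / 2) ∈ O := eta_mem h20 hI2 hA' hD hE hF hG hA hD' hE' hF' hG' h
  have hw : O.valuation w ≤ 1 := by
    have := (O.valuation_le_one_iff _).2 heta
    rwa [map_mul, hS, mul_one] at this
  have hAw : O.valuation (A ^ 2 * w) = 1 := by
    have e : A ^ 2 * w = -D + z * D' := by rw [h.hD]; ring
    rw [e]
    exact add_unit (by rw [Valuation.map_neg]; exact hvD) hvzD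
  have hAw' : O.valuation (A ^ 2 * w) < 1 := by
    rw [map_mul, map_pow, sq, mul_assoc]
    calc O.valuation A * (O.valuation A * O.valuation w) ≤ O.valuation A * 1 := by
          apply mul_le_mul_right
          exact mul_le_one' hvA.le hw
      _ < 1 := by rw [mul_one]; exact hvA
  rw [hAw] at hAw'
  exact lt_irrefl _ hAw'

/-- the translation is integral -/
theorem w_mem (h2 : O.valuation 2 = 1) (hA' : A' ∈ O) (hD : D ∈ O) (hE : E ∈ O)
    (hF : F ∈ O) (hG : G ∈ O) (hA : A ∈ O) (hD' : D' ∈ O) (hE' : E' ∈ O) (hF' : F' ∈ O)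
    (hG' : G' ∈ O)
    (hu : AVS.UI (O : Set L) A ∨ AVS.UI (O : Set L) D) (hz : O.valuation z = 1)
    (h : Rel A D E F G A' D' E' F' G' w z) : w ∈ O := by
  have h20 : (2 : L) ≠ 0 := by
    intro h0; rw [h0, map_zero] at h2; exact zero_ne_one h2
  have hI2 : (2 : L)⁻¹ ∈ O := (O.valuation_le_one_iff _).1 (by rw [map_inv₀, h2, inv_one])
  have hzO : z ∈ O := (O.valuation_le_one_iff _).1 hz.le
  have hAw : A ^ 2 * w ∈ O := by
    have e : A ^ 2 * w = z * D' - D := by rw [h.hD]; ring
    rw [e]; exact sub_mem (mul_mem hzO hD') hD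
  by_cases huA : AVS.UI (O : Set L) A
  · rw [← O.valuation_le_one_iff]
    have := (O.valuation_le_one_iff _).2 hAw
    rw [map_mul, map_pow, ui_iff.1 huA, one_pow, one_mul] at this
    exact this
  · have hvD : O.valuation D = 1 := by
      rcases hu with hu | hu
      · exact absurd hu huA
      · exact ui_iff.1 hu
    by_contra hw
    have hwi : w⁻¹ ∈ O := (O.mem_or_inv_mem w).resolve_left hw
    have hw0 : w ≠ 0 := by
      rintro rfl; exact hw O.zero_mem
    have hvw : 1 < O.valuation w := by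
      rw [← not_le, O.valuation_le_one_iff]; exact hw
    have hvwi : O.valuation w⁻¹ < 1 := by
      rw [map_inv₀]; exact inv_lt_one_of_one_lt₀ hvw
    have mulsmall : ∀ x ∈ O, O.valuation (x * w⁻¹) < 1 := by
      intro x hx
      rw [map_mul]
      calc O.valuation x * O.valuation w⁻¹ ≤ 1 * O.valuation w⁻¹ :=
            mul_le_mul_left ((O.valuation_le_one_iff _).2 hx) _
        _ < 1 := by rw [one_mul]; exact hvwi
    have heta := eta_mem h20 hI2 hA' hD hE hF hG hA hD' hE' hF' hG' h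
    have hS : O.valuation (D + A ^ 2 * w / 2) < 1 := by
      have e : D + A ^ 2 * w / 2 = w * (D + A ^ 2 * w / 2) * w⁻¹ := by field_simp
      rw [e]; exact mulsmall _ heta
    have hT : O.valuation (3 * D + A ^ 2 * w) = 1 := by
      have e : 3 * D + A ^ 2 * w = D + 2 * (D + A ^ 2 * w / 2) := by field_simp; ring
      rw [e]
      apply add_unit hvD
      rw [map_mul, h2, one_mul]; exact hS
    have hFz : 3 * D * w ^ 2 + A ^ 2 * w ^ 3 + 2 * E * w + F ∈ O := by
      have e : 3 * D * w ^ 2 + A ^ 2 * w ^ 3 + 2 * E * w + F = z⁻¹ * F' := by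
        rw [h.hF]
        have := h.zne
        field_simp
      rw [e]
      refine mul_mem ?_ hF'
      rw [← O.valuation_le_one_iff, map_inv₀, hz, inv_one]
    have h2O : (2 : L) ∈ O := (O.valuation_le_one_iff _).1 h2.le
    have e : 3 * D + A ^ 2 * w =
        ((3 * D * w ^ 2 + A ^ 2 * w ^ 3 + 2 * E * w + F) * w⁻¹ - 2 * E - F * w⁻¹) * w⁻¹ := by
      field_simp
      ring
    rw [e] at hT
    have := mulsmall _ (sub_mem (sub_mem (mul_mem hFz hwi) (mul_mem h2O hE)) (mul_mem hF hwi))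
    rw [hT] at this
    exact lt_irrefl _ this

end val

/-- the form of the matrix -/
theorem shape {A D E F G A' D' E' F' G' s : L} (h2 : (2 : L) ≠ 0) {h : Matrix (Fin 3) (Fin 3) L}
    (he : Eqv h (sg A D E F G) (sg A' D' E' F' G'))
    (h1 : h *ᵥ (e1 : Fin 3 → L) = s • (e1 : Fin 3 → L)) :
    ∃ w z : L, s ≠ 0 ∧ Rel A D E F G A' D' E' F' G' w z ∧
      h = s • !![1, 0, z * w; A * w, 1, A * w * (z * w) / 2; 0, 0, z] := by
  have c0 : h 0 1 = 0 := by
    have := congrFun h1 0
    simpa [Matrix.mulVec, dotProduct, Fin.sum_univ_three, e1] using this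
  have c1 : h 1 1 = s := by
    have := congrFun h1 1
    simpa [Matrix.mulVec, dotProduct, Fin.sum_univ_three, e1] using this
  have c2 : h 2 1 = 0 := by
    have := congrFun h1 2
    simpa [Matrix.mulVec, dotProduct, Fin.sum_univ_three, e1] using this
  obtain ⟨hdet, heq⟩ := he
  have hd : h.det ≠ 0 := hdet.ne_zero
  have hd2 : h.det = s * (h 0 0 * h 2 2 - h 0 2 * h 2 0) := by
    rw [Matrix.det_fin_three, c0, c1, c2]; ring
  rw [hd2] at hd heq
  have hs : s ≠ 0 := left_ne_zero_of_mul hd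
  have q0 := congrFun heq 0
  have q1 := congrFun heq 1
  have q2 := congrFun heq 2
  have q3 := congrFun heq 3
  have q4 := congrFun heq 4
  have q5 := congrFun heq 5
  have q7 := congrFun heq 7
  have q8 := congrFun heq 8
  have q9 := congrFun heq 9
  simp [tsub, sg, tev, tder, c0, c1, c2] at q0 q1 q2 q3 q4 q5 q7 q8 q9
  have y0 : h 2 0 = 0 := by
    rcases q3 with h3 | h3
    · exact absurd h3 hs
    · exact h3
  have hh : h = !![h 0 0, 0, h 0 2; h 1 0, s, h 1 2; 0, 0, h 2 2] := by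
    ext i j
    fin_cases i <;> fin_cases j <;> simp [c0, c1, c2, y0]
  rw [y0] at hd
  generalize h 0 0 = p at *
  generalize h 0 2 = u at *
  generalize h 1 0 = q at *
  generalize h 1 2 = r at *
  generalize h 2 2 = z at *
  generalize h 2 0 = y at *
  subst y0
  have hpz : p * z ≠ 0 := by
    intro h0; apply hd; rw [mul_zero, sub_zero, h0, mul_zero]
  have hz : z ≠ 0 := right_ne_zero_of_mul hpz
  have hps : p = s := by
    have : s * z * (p - s) = 0 := by linear_combination -q7
    rcases mul_eq_zero.1 this with h3 | h3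
    · exact absurd h3 (mul_ne_zero hs hz)
    · exact sub_eq_zero.1 h3
  subst hps
  obtain ⟨w, hw⟩ : ∃ w, u = z * w := ⟨u / z, by field_simp⟩
  subst hw
  have hq : q = p * (A * w) := by
    have : 2 * p * z * (q - p * (A * w)) = 0 := by linear_combination -q4
    rcases mul_eq_zero.1 this with h3 | h3
    · exact absurd h3 (mul_ne_zero (mul_ne_zero h2 hs) hz)
    · exact sub_eq_zero.1 h3
  subst hq
  have hr : r = A * w ^ 2 * z / 2 := by
    have : 2 * z * p * (r - A * w ^ 2 * z / 2) = 0 := by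
      field_simp
      linear_combination (-1 : L) * q8
    rcases mul_eq_zero.1 this with h3 | h3
    · exact absurd h3 (mul_ne_zero (mul_ne_zero h2 hz) hs)
    · exact sub_eq_zero.1 h3
  subst hr
  obtain ⟨t, ht⟩ : ∃ t, z = p * t := ⟨z / p, by field_simp⟩
  subst ht
  have ht0 : t ≠ 0 := right_ne_zero_of_mul hz
  have h4 : (4 : L) ≠ 0 := by
    have : (4 : L) = 2 * 2 := by norm_num
    rw [this]; exact mul_ne_zero h2 h2
  have canc : ∀ x y : L, p ^ 3 * t * (x - y) = 0 → x = y := by
    intro x y h3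
    rcases mul_eq_zero.1 h3 with h3 | h3
    · exact absurd h3 (mul_ne_zero (pow_ne_zero 3 hs) ht0)
    · exact sub_eq_zero.1 h3
  have canc4 : ∀ x y : L, p ^ 3 * t * (4 * x - 4 * y) = 0 → x = y := by
    intro x y h3
    rcases mul_eq_zero.1 h3 with h3 | h3
    · exact absurd h3 (mul_ne_zero (pow_ne_zero 3 hs) ht0)
    · exact mul_left_cancel₀ h4 (sub_eq_zero.1 h3)
  have canc' : ∀ x y : L, p ^ 3 * (x - y) = 0 → x = y := by
    intro x y h3
    rcases mul_eq_zero.1 h3 with h3 | h3
    · exact absurd h3 (pow_ne_zero 3 hs)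
    · exact sub_eq_zero.1 h3
  refine ⟨w, t, hs, ⟨ht0, ?_, ?_, ?_, ?_, ?_⟩, ?_⟩
  · apply canc'
    linear_combination -q1
  · apply canc'
    linear_combination -q0
  · apply canc
    field_simp at q2 ⊢
    linear_combination (-(p * t)) * q2
  · apply canc4
    field_simp at q5 ⊢
    linear_combination (-(p ^ 2 * t)) * q5
  · apply canc
    field_simp at q9 ⊢
    linear_combination (-(p ^ 2 * t)) * q9
  · rw [hh]
    ext i j
    fin_cases i <;> fin_cases j <;> simp
    · ring
    · field_simp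

end Pool.Agent.H40.AV3C.UNI3

namespace Pool.Agent.H40.AV3C

open Matrix Pool.AV3

theorem uni3_thm : UNI3Stmt := by
  intro L _ O π hL A D E F G A' D' E' F' G' s h hA hD hE hF hG hA' hD' hE' hF' hG' hu hu' he h1
  have h2 : O.valuation 2 = 1 := by
    apply le_antisymm
    · have : (2 : L) ∈ O := by
        have h1' : (1 : L) ∈ O := O.one_mem
        have := add_mem h1' h1'
        rwa [one_add_one_eq_two] at this
      exact (O.valuation_le_one_iff _).2 this
    · have h3 := (O.valuation_le_one_iff _).2 hL.two.2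
      rw [map_inv₀] at h3
      exact (inv_le_one₀ (zero_lt_iff.2 ((Valuation.ne_zero_iff _).2 hL.two.1))).1 h3
  obtain ⟨w, z, hs, hrel, hh⟩ := UNI3.shape hL.two.1 he h1
  have n1 := UNI3.not_lt h2 hA' hD hE hF hG hA hD' hE' hF' hG' hu hrel
  have n2 := UNI3.not_lt h2 hA hD' hE' hF' hG' hA' hD hE hF hG hu' (hrel.swap hL.two.1)
  have hz : O.valuation z = 1 := by
    apply le_antisymm
    · rw [map_inv₀, not_lt] at n2
      exact (one_le_inv₀ (zero_lt_iff.2 ((Valuation.ne_zero_iff _).2 hrel.zne))).1 n2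
    · exact not_lt.1 n1
  have hw := UNI3.w_mem h2 hA' hD hE hF hG hA hD' hE' hF' hG' hu hz hrel
  have hzu := UNI3.ui_iff.2 hz
  refine ⟨s⁻¹, inv_ne_zero hs, ?_⟩
  have e : s⁻¹ • h = !![1, 0, z * w; A * w, 1, A * w * (z * w) / 2; 0, 0, z] := by
    rw [hh, smul_smul, inv_mul_cancel₀ hs, one_smul]
  rw [e]
  have hzO : z ∈ O := hzu.2.1
  constructor
  · intro i j
    fin_cases i <;> fin_cases j
    · exact O.one_mem
    · exact O.zero_mem
    · exact mul_mem hzO hw
    · exact mul_mem hA hw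
    · exact O.one_mem
    · change A * w * (z * w) / 2 ∈ O
      rw [div_eq_mul_inv]
      exact mul_mem (mul_mem (mul_mem hA hw) (mul_mem hzO hw)) hL.two.2
    · exact O.zero_mem
    · exact O.zero_mem
    · exact hzO
  · have : (!![1, 0, z * w; A * w, 1, A * w * (z * w) / 2; 0, 0, z] : Matrix (Fin 3) (Fin 3) L).det = z := by
      rw [Matrix.det_fin_three]
      simp
    rw [this]
    exact hzu

end Pool.Agent.H40.AV3C
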